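import Pool.Agent.Work.MP_a6e60d_ag.Fld.Datum
import Mathlib.FieldTheory.KummerPolynomial
import Mathlib.RingTheory.AdjoinRoot

/-!
# The field data over a field `k` in which `-3` is not a square and `c` is not a cube

`F = k(√-3)`, `L = k(∛c)`, `K = F(∛c)`.
-/

noncomputable section

namespace Orl.Fld.Gen

open Polynomial Module QuadraticAlgebra

section

variable (k : Type) [Field k]

/-- `k(√-3)` -/
abbrev F : Type := QuadraticAlgebra k (-3) 0

/-- the square root of `-3` -/
def s : F k := ω

lemma s_sq : s k * s k = -3 := by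
  ext <;> simp [s]

lemma s_star : star (s k) = -s k := by
  ext <;> simp [s]

variable {k} in
/-- `k(∛c)` -/
abbrev L (c : k) : Type := AdjoinRoot (X ^ 3 - C c : k[X])

variable {k} in
/-- `k(√-3, ∛c)` -/
abbrev K (c : k) : Type := AdjoinRoot (X ^ 3 - C (algebraMap k (F k) c) : (F k)[X])

variable [hF : Fact (∀ r : k, r ^ 2 ≠ -3 + 0 * r)]

include hF in
lemma two_ne : (2 : k) ≠ 0 := fun h => hF.out 1 (by linear_combination 2 * h)

include hF in
lemma three_ne : (3 : k) ≠ 0 := fun h => hF.out 0 (by linear_combination h)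

end

variable {k : Type} [Field k] [hF : Fact (∀ r : k, r ^ 2 ≠ -3 + 0 * r)]
  (c : k) [hc : Fact (∀ r : k, r ^ 3 ≠ c)]

include hF hc in
lemma cube_F (b : F k) : b ^ 3 ≠ algebraMap k (F k) c := by
  intro h
  obtain ⟨x, y⟩ := b
  have hre := congrArg QuadraticAlgebra.re h
  have him := congrArg QuadraticAlgebra.im h
  simp only [pow_succ, pow_zero, one_mul, QuadraticAlgebra.re_mul, QuadraticAlgebra.im_mul,
    QuadraticAlgebra.algebraMap_re, QuadraticAlgebra.algebraMap_im] at hre him
  have h1 : y * (x ^ 2 - y ^ 2) = 0 := by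
    apply (mul_eq_zero.1 (?_ : (3 : k) * (y * (x ^ 2 - y ^ 2)) = 0)).resolve_left (three_ne k)
    linear_combination him
  rcases mul_eq_zero.1 h1 with h2 | h2
  · rw [h2] at hre
    exact hc.out x (by linear_combination hre)
  · exact hc.out (-2 * x) (by linear_combination hre - 9 * x * h2)

omit hF in
include hc in
lemma c_ne : c ≠ 0 := fun h => hc.out 0 (by rw [h]; ring)

instance factL : Fact (Irreducible (X ^ 3 - C c : k[X])) :=
  ⟨X_pow_sub_C_irreducible_of_prime Nat.prime_three hc.out⟩

instance factK : Fact (Irreducible (X ^ 3 - C (algebraMap k (F k) c) : (F k)[X])) :=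
  ⟨X_pow_sub_C_irreducible_of_prime Nat.prime_three (cube_F c)⟩

lemma ev {R S : Type*} [CommRing R] [CommRing S] (i : R →+* S) (u : R) (x : S) :
    (X ^ 3 - C u : R[X]).eval₂ i x = x ^ 3 - i u := by
  rw [eval₂_sub, eval₂_X_pow, eval₂_C]

lemma two_neF : (2 : F k) ≠ 0 := by
  have h := (map_ne_zero (algebraMap k (F k))).2 (two_ne k)
  rwa [map_ofNat] at h

lemma two_neK : (2 : K c) ≠ 0 := by
  have h := (map_ne_zero (algebraMap k (K c))).2 (two_ne k)
  rwa [map_ofNat] at h

lemma three_neK : (3 : K c) ≠ 0 := by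
  have h := (map_ne_zero (algebraMap k (K c))).2 (three_ne k)
  rwa [map_ofNat] at h

/-- `∛c` in `K` -/
def th : K c := AdjoinRoot.root _

/-- `∛c` in `L` -/
def thL : L c := AdjoinRoot.root _

lemma th_cub : th c ^ 3 = algebraMap k (K c) c := by
  have h := AdjoinRoot.eval₂_root (X ^ 3 - C (algebraMap k (F k) c) : (F k)[X])
  rw [ev] at h
  exact sub_eq_zero.1 h

omit hF in
lemma thL_cub : thL c ^ 3 = algebraMap k (L c) c := by
  have h := AdjoinRoot.eval₂_root (X ^ 3 - C c : k[X])
  rw [ev] at h
  exact sub_eq_zero.1 h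

/-- the embedding of `L` in `K` -/
def iL : L c →+* K c :=
  AdjoinRoot.lift (algebraMap k (K c)) (th c) (by rw [ev, th_cub, sub_self])

lemma iL_th : iL c (thL c) = th c := AdjoinRoot.lift_root _

instance algLK : Algebra (L c) (K c) := (iL c).toAlgebra

instance towL : IsScalarTower k (L c) (K c) := IsScalarTower.of_algebraMap_eq fun q => by
  change _ = iL c _
  rw [AdjoinRoot.algebraMap_eq, iL, AdjoinRoot.lift_of]

variable (k) in
/-- the cube root of unity -/
def om : F k := (-1 + s k) / 2

variable (k) in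
lemma om_eq : 2 * om k = -1 + s k := by
  rw [om]
  exact mul_div_cancel₀ _ two_neF

variable (k) in
lemma om_sq : om k ^ 2 = -1 - om k := by
  apply mul_left_cancel₀ (mul_ne_zero (two_neF (k := k)) two_neF)
  linear_combination (2 * om k + s k + 1) * om_eq k + s_sq k

variable (k) in
lemma s_eq : s k = 2 * om k + 1 := by
  rw [om_eq]
  ring

/-- the cube root of unity in `K` -/
def omK : K c := algebraMap (F k) (K c) (om k)

lemma omK_sq : omK c ^ 2 = -1 - omK c := by
  rw [omK, ← map_pow, om_sq, map_sub, map_neg, map_one]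

lemma omK_cub : omK c ^ 3 = 1 := by
  linear_combination (omK c - 1) * omK_sq c

lemma sK_eq : algebraMap (F k) (K c) (s k) = 2 * omK c + 1 := by
  have h2 : algebraMap (F k) (K c) 2 = 2 := map_ofNat _ 2
  rw [s_eq, map_add, map_mul, map_one, h2, omK]

/-- the generator of the Galois group over `F` -/
def sigH : K c →ₐ[F k] K c := AdjoinRoot.liftAlgHom _ (Algebra.ofId (F k) (K c)) (omK c * th c) (by
  rw [ev, mul_pow, omK_cub, th_cub, one_mul]
  exact sub_self _)

lemma sigH_th : sigH c (th c) = omK c * th c := AdjoinRoot.liftAlgHom_root _ _ _ _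

lemma sigH_om : sigH c (omK c) = omK c := (sigH c).commutes (om k)

/-- a basis of `K` over `F` -/
def pbK : PowerBasis (F k) (K c) :=
  AdjoinRoot.powerBasis (f := (X ^ 3 - C (algebraMap k (F k) c) : (F k)[X])) (factK c).out.ne_zero

omit hF in
/-- a basis of `L` over `k` -/
def pbL : PowerBasis k (L c) :=
  AdjoinRoot.powerBasis (f := (X ^ 3 - C c : k[X])) (factL c).out.ne_zero

lemma pbK_gen : (pbK c).gen = th c := rfl

lemma pbK_dim : (pbK c).dim = 3 := natDegree_X_pow_sub_C

omit hF in
lemma pbL_gen : (pbL c).gen = thL c := rfl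

omit hF in
lemma pbL_dim : (pbL c).dim = 3 := natDegree_X_pow_sub_C

instance finKF : Module.Finite (F k) (K c) := (pbK c).finite

instance finL : Module.Finite k (L c) := (pbL c).finite

instance finK : Module.Finite k (K c) := Module.Finite.trans (F k) (K c)

instance finKL : Module.Finite (L c) (K c) := Module.Finite.of_restrictScalars_finite k (L c) (K c)

/-- the automorphism `σ` -/
def sig : K c ≃ₐ[F k] K c := AlgEquiv.ofBijective (sigH c) (sigH c).bijective

/-- the conjugation as a ring homomorphism -/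
def tauR : K c →+* K c :=
  AdjoinRoot.lift ((algebraMap (F k) (K c)).comp (starRingEnd (F k))) (th c) (by
    rw [ev, th_cub, sub_eq_zero]
    change _ = algebraMap (F k) (K c) (star (algebraMap k (F k) c))
    rw [IsScalarTower.algebraMap_apply k (F k) (K c)]
    congr 1
    ext <;> simp)

lemma tauR_th : tauR c (th c) = th c := AdjoinRoot.lift_root _

lemma tauR_of (x : F k) : tauR c (algebraMap (F k) (K c) x) = algebraMap (F k) (K c) (star x) := by
  rw [AdjoinRoot.algebraMap_eq, tauR, AdjoinRoot.lift_of]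
  rfl

lemma tauR_k (x : k) : tauR c (algebraMap k (K c) x) = algebraMap k (K c) x := by
  rw [IsScalarTower.algebraMap_apply k (F k) (K c), tauR_of]
  congr 1
  ext <;> simp

lemma tauR_iL (x : L c) : tauR c (iL c x) = iL c x := by
  have h : (tauR c).comp (iL c) = iL c := by
    refine AdjoinRoot.ringHom_ext ?_ ?_
    · ext q
      change tauR c (iL c (AdjoinRoot.of _ q)) = iL c (AdjoinRoot.of _ q)
      rw [iL, AdjoinRoot.lift_of, tauR_k]
    · change tauR c (iL c (thL c)) = iL c (thL c)
      rw [iL_th, tauR_th]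
  exact congrFun (congrArg DFunLike.coe h) x

/-- the conjugation -/
def tauH : K c →ₐ[L c] K c := { tauR c with commutes' := tauR_iL c }

/-- the automorphism `τ` -/
def tau : K c ≃ₐ[L c] K c := AlgEquiv.ofBijective (tauH c) (tauH c).bijective

lemma tau_s : tau c (algebraMap (F k) (K c) (s k)) = -algebraMap (F k) (K c) (s k) := by
  change tauR c (algebraMap (F k) (K c) (s k)) = _
  rw [tauR_of, ← map_neg, s_star]

lemma tau_om : tau c (omK c) = omK c ^ 2 := by
  have h : tau c (2 * omK c + 1) = -(2 * omK c + 1) := by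
    rw [← sK_eq]
    exact tau_s c
  have h2 : tau c 2 = 2 := map_ofNat _ 2
  rw [map_add, map_mul, h2, map_one] at h
  rw [omK_sq]
  apply mul_left_cancel₀ (two_neK c)
  linear_combination h

lemma tau_th : tau c (th c) = th c := tauR_th c

omit hF in
lemma finrank_F : finrank k (F k) = 2 := QuadraticAlgebra.finrank_eq_two _ _

lemma finrank_KF : finrank (F k) (K c) = 3 := by rw [(pbK c).finrank, pbK_dim]

omit hF in
lemma finrank_L : finrank k (L c) = 3 := by rw [(pbL c).finrank, pbL_dim]

lemma finrank_KL : finrank (L c) (K c) = 2 := by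
  have h1 := finrank_mul_finrank k (L c) (K c)
  have h2 := finrank_mul_finrank k (F k) (K c)
  rw [finrank_L] at h1
  rw [finrank_F, finrank_KF] at h2
  omega

lemma sK_ne : algebraMap (F k) (K c) (s k) ≠ 0 := by
  refine (_root_.map_ne_zero _).2 fun h => ?_
  have := congrArg QuadraticAlgebra.im h
  simp [s] at this

lemma li : LinearIndependent (L c) ![(1 : K c), algebraMap (F k) (K c) (s k)] := by
  rw [LinearIndependent.pair_iff]
  intro x y h
  simp only [Algebra.smul_def, mul_one] at h
  have h2 := congrArg (tau c) h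
  rw [map_add, map_mul, (tau c).commutes, (tau c).commutes, map_zero, tau_s] at h2
  have hx : algebraMap (L c) (K c) x = 0 := by
    apply (mul_eq_zero.1 (?_ : (2 : K c) * algebraMap (L c) (K c) x = 0)).resolve_left (two_neK c)
    linear_combination h + h2
  have hy : algebraMap (L c) (K c) y * algebraMap (F k) (K c) (s k) = 0 := by
    linear_combination h - hx
  rcases mul_eq_zero.1 hy with h3 | h3
  · exact ⟨(map_eq_zero _).1 hx, (map_eq_zero _).1 h3⟩
  · exact absurd h3 (sK_ne c)

lemma omK_ne : omK c ≠ 1 := by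
  intro h
  have h1 : (1 : K c) = -1 - 1 := by
    have := omK_sq c
    rwa [h, one_pow] at this
  have h3 : (3 : K c) = 0 := by linear_combination h1
  exact three_neK c h3

lemma cK_ne : algebraMap k (K c) c ≠ 0 := (_root_.map_ne_zero _).2 (c_ne c)

lemma th_ne : th c ≠ 0 := by
  intro h
  have := th_cub c
  rw [h, zero_pow (by norm_num)] at this
  exact cK_ne c this.symm

/-- the roots -/
def r : Fin 3 → K c := ![th c, omK c * th c, omK c ^ 2 * th c]

lemma r0 : r c 0 = th c := rfl
lemma r1 : r c 1 = omK c * th c := rfl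
lemma r2 : r c 2 = omK c ^ 2 * th c := rfl

lemma r_inj : Function.Injective (r c) := by
  have h01 : r c 0 ≠ r c 1 := by
    rw [r0, r1]
    intro h
    apply omK_ne c
    apply mul_right_cancel₀ (th_ne c)
    rw [← h, one_mul]
  have h12 : r c 1 ≠ r c 2 := by
    rw [r1, r2]
    intro h
    apply omK_ne c
    have h2 := mul_right_cancel₀ (th_ne c) h
    calc omK c = omK c ^ 2 * omK c ^ 2 := by linear_combination -omK c * omK_cub c
      _ = omK c * omK c ^ 2 := by rw [← h2]
      _ = 1 := by rw [← pow_succ', omK_cub]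
  have h02 : r c 0 ≠ r c 2 := by
    rw [r0, r2]
    intro h
    apply omK_ne c
    have h2 : 1 * th c = omK c ^ 2 * th c := by rw [one_mul]; exact h
    have h3 := mul_right_cancel₀ (th_ne c) h2
    calc omK c = omK c * 1 := (mul_one _).symm
      _ = omK c * omK c ^ 2 := by rw [← h3]
      _ = 1 := by rw [← pow_succ', omK_cub]
  intro i j hij
  by_contra hne
  fin_cases i <;> fin_cases j
  all_goals first
    | exact hne rfl
    | exact h01 hij
    | exact h01 hij.symm
    | exact h12 hij
    | exact h12 hij.symm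
    | exact h02 hij
    | exact h02 hij.symm

/-- the field data over `k` -/
def datum : FieldDatum k (F k) (L c) (K c) where
  a := -3
  c := c
  d := -3 * c
  s := s k
  th := thL c
  s_sq := by
    rw [s_sq, map_neg, map_ofNat]
  th_cub := thL_cub c
  a_ne := neg_ne_zero.2 (three_ne k)
  c_ne := c_ne c
  d_ne := mul_ne_zero (neg_ne_zero.2 (three_ne k)) (c_ne c)
  two := two_ne k
  three := three_ne k
  bF := QuadraticAlgebra.basis _ _
  bF0 := by
    ext <;> simp [QuadraticAlgebra.basis]
  bF1 := by
    ext <;> simp [QuadraticAlgebra.basis, s]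
  bL := (pbL c).basis.reindex (finCongr (pbL_dim c))
  bL0 := by simp
  bL1 := by simp [pbL_gen]
  bL2 := by simp [pbL_gen]
  bKL := basisOfLinearIndependentOfCardEqFinrank (li c) (by rw [finrank_KL, Fintype.card_fin])
  bKL0 := by simp
  bKL1 := by simp
  bKF := (pbK c).basis.reindex (finCongr (pbK_dim c))
  bKF0 := by simp
  bKF1 := by
    simp [pbK_gen]
    exact (iL_th c).symm
  bKF2 := by
    simp [pbK_gen]
    exact congrArg (· ^ 2) (iL_th c).symm
  r := r c
  r_zero := (iL_th c).symm
  r_inj := r_inj c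
  sum_r := by
    rw [r0, r1, r2]
    linear_combination th c * omK_sq c
  sum_rr := by
    rw [r0, r1, r2]
    linear_combination th c ^ 2 * (omK_sq c + omK_cub c)
  prod_r := by
    rw [r0, r1, r2]
    linear_combination th c ^ 3 * omK_cub c + th_cub c
  disc := by
    rw [r0, r1, r2, sK_eq]
    have h : algebraMap k (K c) (-3 * c) = -3 * algebraMap k (K c) c := by
      rw [map_mul, map_neg, map_ofNat]
    rw [h]
    linear_combination th c ^ 3 * (omK c ^ 3 - 3 * omK c ^ 2 + 2 * omK c + 3) * omK_sq c -
      3 * (2 * omK c + 1) * th_cub c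
  sig := sig c
  sig_r := by
    intro j
    have h1 : sig c (r c 0) = r c 1 := sigH_th c
    have h2 : sig c (r c 1) = r c 2 := by
      change sigH c (omK c * th c) = omK c ^ 2 * th c
      rw [map_mul, sigH_om, sigH_th]
      ring
    have h3 : sig c (r c 2) = r c 0 := by
      change sigH c (omK c ^ 2 * th c) = th c
      rw [map_mul, map_pow, sigH_om, sigH_th]
      linear_combination th c * omK_cub c
    have hj : j = 0 ∨ j = 1 ∨ j = 2 := by
      revert j
      decide
    rcases hj with h | h | h <;> rw [h]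
    · exact h1
    · exact h2
    · exact h3
  tau := tau c
  tau_s := tau_s c
  tau_r := by
    rw [r1, r2, map_mul, tau_om, tau_th]

end Orl.Fld.Gen

namespace Orl.Fld

/-- A field in which `-3` is not a square and `c` is not a cube has the extensions of the
construction. -/
theorem exists_datum_gen (k : Type) [Field k] (c : k) (h3 : ¬ IsSquare (-3 : k))
    (hc : ∀ x : k, x ^ 3 ≠ c) : ∃ (F L K : Type) (_ : Field F) (_ : Field L) (_ : Field K)
    (_ : Algebra k F) (_ : Algebra k L) (_ : Algebra k K) (_ : Algebra F K) (_ : Algebra L K)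
    (_ : IsScalarTower k F K) (_ : IsScalarTower k L K) (D : FieldDatum k F L K),
    D.a = -3 ∧ D.c = c ∧ D.d = -3 * c :=
  haveI : Fact (∀ r : k, r ^ 2 ≠ -3 + 0 * r) :=
    ⟨fun r h => h3 ⟨r, by linear_combination -h⟩⟩
  haveI : Fact (∀ r : k, r ^ 3 ≠ c) := ⟨hc⟩
  ⟨Gen.F k, Gen.L c, Gen.K c, inferInstance, inferInstance, inferInstance, inferInstance,
    inferInstance, inferInstance, inferInstance, inferInstance, inferInstance, inferInstance,
    Gen.datum c, rfl, rfl, rfl⟩

end Orl.Fld
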