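import Pool.Agent.Work.MP_a6e60d_ag.Fld.Datum
import Mathlib.FieldTheory.KummerPolynomial
import Mathlib.RingTheory.AdjoinRoot

/-!
# The field data over the rational numbers

`F = ℚ(√-3)`, `L = ℚ(∛2)`, `K = F(∛2)`.
-/

noncomputable section

namespace Orl.Fld.Rat

open Polynomial Module QuadraticAlgebra

lemma cube_int (y : ℤ) : y ^ 3 ≠ 2 := by
  intro h
  rcases le_or_gt y 1 with h1 | h1
  · rcases le_or_gt y 0 with h0 | h0
    · have : y ^ 3 ≤ 0 := by
        have := mul_nonneg_of_nonpos_of_nonpos h0 h0
        nlinarith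
      omega
    · have : y = 1 := by omega
      subst this
      norm_num at h
  · have : 2 ≤ y := h1
    have : 8 ≤ y ^ 3 := by
      have h4 : 4 ≤ y * y := by nlinarith
      nlinarith
    omega

lemma cube_rat (b : ℚ) : b ^ 3 ≠ 2 := by
  intro h
  have hint : IsIntegral ℤ b := by
    refine ⟨X ^ 3 - C 2, monic_X_pow_sub_C _ (by norm_num), ?_⟩
    simp [h]
  obtain ⟨y, hy⟩ := IsIntegrallyClosed.isIntegral_iff.1 hint
  rw [← hy, eq_intCast] at h
  exact cube_int y (by exact_mod_cast h)

instance factF : Fact (∀ r : ℚ, r ^ 2 ≠ -3 + 0 * r) := ⟨fun r h => by nlinarith [sq_nonneg r]⟩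

/-- `ℚ(√-3)` -/
abbrev F : Type := QuadraticAlgebra ℚ (-3) 0

instance : CharZero F := inferInstance

lemma cube_F (b : F) : b ^ 3 ≠ 2 := by
  intro h
  obtain ⟨x, y⟩ := b
  have hre := congrArg QuadraticAlgebra.re h
  have him := congrArg QuadraticAlgebra.im h
  simp only [pow_succ, pow_zero, one_mul, QuadraticAlgebra.re_mul, QuadraticAlgebra.im_mul,
    QuadraticAlgebra.re_ofNat, QuadraticAlgebra.im_ofNat] at hre him
  ring_nf at hre him
  have h1 : y * (x ^ 2 - y ^ 2) = 0 := by linarith
  rcases mul_eq_zero.1 h1 with h2 | h2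
  · rw [h2] at hre
    exact cube_rat x (by linarith)
  · have h3 : y ^ 2 = x ^ 2 := by linarith
    have h4 : (-2 * x) ^ 3 = 2 := by
      have : x * y ^ 2 = x ^ 3 := by rw [h3]; ring
      nlinarith
    exact cube_rat _ h4

instance factL : Fact (Irreducible (X ^ 3 - C 2 : ℚ[X])) :=
  ⟨X_pow_sub_C_irreducible_of_prime Nat.prime_three cube_rat⟩

instance factK : Fact (Irreducible (X ^ 3 - C 2 : F[X])) :=
  ⟨X_pow_sub_C_irreducible_of_prime Nat.prime_three cube_F⟩

lemma ev {R S : Type*} [CommRing R] [CommRing S] (i : R →+* S) (x : S) :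
    (X ^ 3 - C 2 : R[X]).eval₂ i x = x ^ 3 - 2 := by
  rw [eval₂_sub, eval₂_X_pow, eval₂_C, map_ofNat]

/-- `ℚ(∛2)` -/
abbrev L : Type := AdjoinRoot (X ^ 3 - C 2 : ℚ[X])

/-- `ℚ(√-3, ∛2)` -/
abbrev K : Type := AdjoinRoot (X ^ 3 - C 2 : F[X])

instance charK : CharZero K := charZero_of_injective_algebraMap (algebraMap ℚ K).injective

lemma two_ne : (2 : K) ≠ 0 := two_ne_zero

lemma three_ne : (3 : K) ≠ 0 := three_ne_zero

/-- `∛2` in `K` -/
def th : K := AdjoinRoot.root _

/-- `∛2` in `L` -/
def thL : L := AdjoinRoot.root _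

lemma th_cub : th ^ 3 = 2 := by
  have h := AdjoinRoot.eval₂_root (X ^ 3 - C 2 : F[X])
  rw [ev] at h
  exact sub_eq_zero.1 h

lemma thL_cub : thL ^ 3 = 2 := by
  have h := AdjoinRoot.eval₂_root (X ^ 3 - C 2 : ℚ[X])
  rw [ev] at h
  exact sub_eq_zero.1 h

/-- the embedding of `L` in `K` -/
def iL : L →+* K := AdjoinRoot.lift (algebraMap ℚ K) th (by rw [ev, th_cub, sub_self])

lemma iL_th : iL thL = th := AdjoinRoot.lift_root _

instance algLK : Algebra L K := iL.toAlgebra

instance : IsScalarTower ℚ L K := IsScalarTower.of_algebraMap_eq fun q => by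
  change _ = iL _
  rw [AdjoinRoot.algebraMap_eq, iL, AdjoinRoot.lift_of]

/-- the square root of `-3` -/
def s : F := ω

lemma s_sq : s * s = -3 := by
  ext <;> simp [s]

/-- the cube root of unity -/
def om : F := (-1 + s) / 2

lemma om_sq : om ^ 2 = -1 - om := by
  have h := s_sq
  rw [om]
  linear_combination (1 / 4 : F) * h

lemma s_eq : s = 2 * om + 1 := by
  rw [om]
  ring

/-- the cube root of unity in `K` -/
def omK : K := algebraMap F K om

lemma omK_sq : omK ^ 2 = -1 - omK := by
  rw [omK, ← map_pow, om_sq, map_sub, map_neg, map_one]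

lemma omK_cub : omK ^ 3 = 1 := by
  linear_combination (omK - 1) * omK_sq

lemma sK_eq : algebraMap F K s = 2 * omK + 1 := by
  have h2 : algebraMap F K 2 = 2 := map_ofNat _ 2
  rw [s_eq, map_add, map_mul, map_one, h2, omK]

/-- the generator of the Galois group over `F` -/
def sigH : K →ₐ[F] K := AdjoinRoot.liftAlgHom _ (Algebra.ofId F K) (omK * th) (by
  rw [ev, mul_pow, omK_cub, th_cub, one_mul, sub_self])

lemma sigH_th : sigH th = omK * th := AdjoinRoot.liftAlgHom_root _ _ _ _

lemma sigH_om : sigH omK = omK := sigH.commutes om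

/-- a basis of `K` over `F` -/
def pbK : PowerBasis F K := AdjoinRoot.powerBasis (f := (X ^ 3 - C 2 : F[X])) factK.out.ne_zero

/-- a basis of `L` over `ℚ` -/
def pbL : PowerBasis ℚ L := AdjoinRoot.powerBasis (f := (X ^ 3 - C 2 : ℚ[X])) factL.out.ne_zero

lemma pbK_gen : pbK.gen = th := rfl

lemma pbK_dim : pbK.dim = 3 := natDegree_X_pow_sub_C

lemma pbL_gen : pbL.gen = thL := rfl

lemma pbL_dim : pbL.dim = 3 := natDegree_X_pow_sub_C

instance finKF : Module.Finite F K := pbK.finite

instance finF : Module.Finite ℚ F := inferInstance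

instance finL : Module.Finite ℚ L := pbL.finite

instance finK : Module.Finite ℚ K := Module.Finite.trans F K

instance finKL : Module.Finite L K := Module.Finite.of_restrictScalars_finite ℚ L K

/-- the automorphism `σ` -/
def sig : K ≃ₐ[F] K := AlgEquiv.ofBijective sigH sigH.bijective

/-- the complex conjugation as a ring homomorphism -/
def tauR : K →+* K := AdjoinRoot.lift ((algebraMap F K).comp (starRingEnd F)) th (by
  rw [ev, th_cub, sub_self])

lemma tauR_th : tauR th = th := AdjoinRoot.lift_root _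

lemma tauR_of (x : F) : tauR (algebraMap F K x) = algebraMap F K (star x) := by
  rw [AdjoinRoot.algebraMap_eq, tauR, AdjoinRoot.lift_of]
  rfl

lemma tauR_iL (x : L) : tauR (iL x) = iL x := by
  have h : tauR.comp iL = iL := by
    refine AdjoinRoot.ringHom_ext (Subsingleton.elim _ _) ?_
    change tauR (iL thL) = iL thL
    rw [iL_th, tauR_th]
  exact congrFun (congrArg DFunLike.coe h) x

/-- the complex conjugation -/
def tauH : K →ₐ[L] K := { tauR with commutes' := tauR_iL }

/-- the automorphism `τ` -/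
def tau : K ≃ₐ[L] K := AlgEquiv.ofBijective tauH tauH.bijective

lemma tau_s : tau (algebraMap F K s) = - algebraMap F K s := by
  change tauR (algebraMap F K s) = _
  rw [tauR_of, ← map_neg]
  congr 1
  ext <;> simp [s]

lemma tau_om : tau omK = omK ^ 2 := by
  have h : tau (2 * omK + 1) = -(2 * omK + 1) := by
    rw [← sK_eq]
    exact tau_s
  have h2 : tau 2 = 2 := map_ofNat _ 2
  rw [map_add, map_mul, h2, map_one] at h
  rw [omK_sq]
  apply mul_left_cancel₀ two_ne
  linear_combination h

lemma tau_th : tau th = th := tauR_th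

lemma finrank_F : finrank ℚ F = 2 := QuadraticAlgebra.finrank_eq_two _ _

lemma finrank_KF : finrank F K = 3 := by rw [pbK.finrank, pbK_dim]

lemma finrank_L : finrank ℚ L = 3 := by rw [pbL.finrank, pbL_dim]

lemma finrank_KL : finrank L K = 2 := by
  have h1 := finrank_mul_finrank ℚ L K
  have h2 := finrank_mul_finrank ℚ F K
  rw [finrank_L] at h1
  rw [finrank_F, finrank_KF] at h2
  omega

lemma sK_ne : algebraMap F K s ≠ 0 := by
  refine (_root_.map_ne_zero _).2 fun h => ?_
  have := congrArg QuadraticAlgebra.im h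
  simp [s] at this

lemma li : LinearIndependent L ![(1 : K), algebraMap F K s] := by
  rw [LinearIndependent.pair_iff]
  intro x y h
  simp only [Algebra.smul_def, mul_one] at h
  have h2 := congrArg tau h
  rw [map_add, map_mul, tau.commutes, tau.commutes, map_zero, tau_s] at h2
  have hx : algebraMap L K x = 0 := by
    apply (mul_eq_zero.1 (?_ : (2 : K) * algebraMap L K x = 0)).resolve_left two_ne
    linear_combination h + h2
  have hy : algebraMap L K y * algebraMap F K s = 0 := by linear_combination h - hx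
  rcases mul_eq_zero.1 hy with h3 | h3
  · exact ⟨(map_eq_zero _).1 hx, (map_eq_zero _).1 h3⟩
  · exact absurd h3 sK_ne

lemma omK_ne : omK ≠ 1 := by
  intro h
  have h1 : (1 : K) = -1 - 1 := by
    have := omK_sq
    rwa [h, one_pow] at this
  have h3 : (3 : K) = 0 := by linear_combination h1
  exact three_ne h3

lemma th_ne : th ≠ 0 := by
  intro h
  have := th_cub
  rw [h, zero_pow (by norm_num)] at this
  exact two_ne this.symm

/-- the roots -/
def r : Fin 3 → K := ![th, omK * th, omK ^ 2 * th]

lemma r0 : r 0 = th := rfl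
lemma r1 : r 1 = omK * th := rfl
lemma r2 : r 2 = omK ^ 2 * th := rfl

lemma r_inj : Function.Injective r := by
  have h01 : r 0 ≠ r 1 := by
    rw [r0, r1]
    intro h
    apply omK_ne
    apply mul_right_cancel₀ th_ne
    rw [← h, one_mul]
  have h12 : r 1 ≠ r 2 := by
    rw [r1, r2]
    intro h
    apply omK_ne
    have h2 := mul_right_cancel₀ th_ne h
    calc omK = omK ^ 2 * omK ^ 2 := by linear_combination -omK * omK_cub
      _ = omK * omK ^ 2 := by rw [← h2]
      _ = 1 := by rw [← pow_succ', omK_cub]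
  have h02 : r 0 ≠ r 2 := by
    rw [r0, r2]
    intro h
    apply omK_ne
    have h2 : 1 * th = omK ^ 2 * th := by rw [one_mul]; exact h
    have h3 := mul_right_cancel₀ th_ne h2
    calc omK = omK * 1 := (mul_one _).symm
      _ = omK * omK ^ 2 := by rw [← h3]
      _ = 1 := by rw [← pow_succ', omK_cub]
  intro i j hij
  by_contra hne
  fin_cases i <;> fin_cases j
  all_goals first
    | exact hne rfl
    | exact h01 hij
    | exact h01 hij.symm
    | exact h12 hij
    | exact h12 hij.symm
    | exact h02 hij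
    | exact h02 hij.symm

lemma map_k (q : ℚ) : algebraMap ℚ K q = (q : K) := eq_ratCast _ _

/-- the field data over the rational numbers -/
def datum : FieldDatum ℚ F L K where
  a := -3
  c := 2
  d := -6
  s := s
  th := thL
  s_sq := by
    rw [s_sq, map_neg, map_ofNat]
  th_cub := by
    rw [thL_cub]
    exact (map_ofNat (algebraMap ℚ L) 2).symm
  a_ne := by norm_num
  c_ne := by norm_num
  d_ne := by norm_num
  two := by norm_num
  three := by norm_num
  bF := QuadraticAlgebra.basis _ _
  bF0 := by
    ext <;> simp [QuadraticAlgebra.basis]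
  bF1 := by
    ext <;> simp [QuadraticAlgebra.basis, s]
  bL := pbL.basis.reindex (finCongr pbL_dim)
  bL0 := by simp
  bL1 := by simp [pbL_gen]
  bL2 := by simp [pbL_gen]
  bKL := basisOfLinearIndependentOfCardEqFinrank li (by rw [finrank_KL, Fintype.card_fin])
  bKL0 := by simp
  bKL1 := by simp
  bKF := pbK.basis.reindex (finCongr pbK_dim)
  bKF0 := by simp
  bKF1 := by
    simp [pbK_gen]
    exact iL_th.symm
  bKF2 := by
    simp [pbK_gen]
    exact congrArg (· ^ 2) iL_th.symm
  r := r
  r_zero := iL_th.symm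
  r_inj := r_inj
  sum_r := by
    rw [r0, r1, r2]
    linear_combination th * omK_sq
  sum_rr := by
    rw [r0, r1, r2]
    linear_combination th ^ 2 * (omK_sq + omK_cub)
  prod_r := by
    rw [r0, r1, r2]
    have h : algebraMap ℚ K 2 = 2 := map_ofNat _ 2
    rw [h]
    linear_combination th ^ 3 * omK_cub + th_cub
  disc := by
    rw [r0, r1, r2, sK_eq]
    have h : algebraMap ℚ K (-6) = -6 := by
      rw [map_neg]
      exact congrArg Neg.neg (map_ofNat (algebraMap ℚ K) 6)
    rw [h]
    have e : (th - omK * th) * (omK * th - omK ^ 2 * th) * (omK ^ 2 * th - th) =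
        th ^ 3 * ((1 - omK) * (omK - omK ^ 2) * (omK ^ 2 - 1)) := by ring
    rw [e, th_cub]
    have e2 : (1 - omK) * (omK - omK ^ 2) * (omK ^ 2 - 1) = -3 * (2 * omK + 1) := by
      linear_combination (omK ^ 3 - 3 * omK ^ 2 + 2 * omK + 3) * omK_sq
    rw [e2]
    ring
  sig := sig
  sig_r := by
    intro j
    have h1 : sig (r 0) = r 1 := sigH_th
    have h2 : sig (r 1) = r 2 := by
      change sigH (omK * th) = omK ^ 2 * th
      rw [map_mul, sigH_om, sigH_th]
      ring
    have h3 : sig (r 2) = r 0 := by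
      change sigH (omK ^ 2 * th) = th
      rw [map_mul, map_pow, sigH_om, sigH_th]
      linear_combination th * omK_cub
    have hj : j = 0 ∨ j = 1 ∨ j = 2 := by
      revert j
      decide
    rcases hj with h | h | h <;> rw [h]
    · exact h1
    · exact h2
    · exact h3
  tau := tau
  tau_s := tau_s
  tau_r := by
    rw [r1, r2, map_mul, tau_om, tau_th]

end Orl.Fld.Rat

namespace Orl.Fld

/-- The rational numbers have the extensions of the construction. -/
theorem exists_datum : ∃ (F L K : Type) (_ : Field F) (_ : Field L) (_ : Field K) (_ : Algebra ℚ F)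
    (_ : Algebra ℚ L) (_ : Algebra ℚ K) (_ : Algebra F K) (_ : Algebra L K)
    (_ : IsScalarTower ℚ F K) (_ : IsScalarTower ℚ L K), Nonempty (FieldDatum ℚ F L K) :=
  ⟨Rat.F, Rat.L, Rat.K, inferInstance, inferInstance, inferInstance, inferInstance, inferInstance,
    inferInstance, inferInstance, inferInstance, inferInstance, inferInstance, ⟨Rat.datum⟩⟩

end Orl.Fld
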