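import Pool.Agent.Work.MP_a6e60d_ag.Fld.Datum
import Pool.Agent.Work.MP_a6e60d_ag.Q.Spl

/-!
# The splitting data of the order from the field data
-/

noncomputable section

namespace Orl.Fld.FieldDatum

open LaurentPolynomial Orl.Q

variable {k F L K : Type} [Field k] [Field F] [Field L] [Field K] [Algebra k F]
    [Algebra k L] [Algebra k K] [Algebra F K] [Algebra L K] [IsScalarTower k F K]
    [IsScalarTower k L K] (D : FieldDatum k F L K)

/-- the form `q = T ^ 3 - c` (with a root at infinity) -/
def qq : k[T;T⁻¹] := T 3 - C D.c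

lemma qq_mem (v : Ch) : D.qq ∈ lat k v 4 := by
  refine Submodule.sub_mem _ ?_ ?_
  · intro m hm
    have h : m = 3 := by
      by_contra h
      apply hm
      rw [T_apply, if_neg (fun h' => h h'.symm)]
    subst h
    cases v <;> simp [Ch.Ok]
  · intro m hm
    have h : m = 0 := by
      by_contra h
      apply hm
      rw [C_apply, if_neg h]
    subst h
    cases v <;> simp [Ch.Ok]

/-- the data of the order -/
def qd : Q.Dat k where
  a := D.a
  q := D.qq
  hq := D.qq_mem

/-- the splitting data -/
def spl : Spl D.qd K where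
  s := D.sK
  hs := D.sK_sq
  s_ne := D.sK_ne
  two_ne := D.twoK
  r := D.r
  inj := D.r_inj
  prod := by
    have h1 := congrArg (C : K → K[T;T⁻¹]) D.sum_r
    have h2 := congrArg (C : K → K[T;T⁻¹]) D.sum_rr
    have h3 := congrArg (C : K → K[T;T⁻¹]) D.prod_r
    simp only [map_add, map_mul, map_zero] at h1 h2 h3
    have h : bc K D.qd.q = T 1 ^ 3 - C (algebraMap k K D.c) := by
      change bc K (T 3 - C D.c) = _
      have hT : bc K (T 3 : k[T;T⁻¹]) = T 3 := by
        ext j
        rw [bc_coeff, T_apply, T_apply]
        split_ifs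
        · exact map_one _
        · exact map_zero _
      rw [map_sub, T_pow, hT, bc_C]
      norm_num
    rw [h]
    linear_combination -(T 1 : K[T;T⁻¹]) ^ 2 * h1 + (T 1 : K[T;T⁻¹]) * h2 - h3

end Orl.Fld.FieldDatum
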