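import Pool.Agent.Work.MP_a6e60d_ag.Fld.Spl
import Pool.Agent.Work.MP_a6e60d_ag.Q.Conj

/-!
# The conjugations over the quadratic field
-/

open CategoryTheory Orl.LF Orl.Gal Orl.Q

attribute [-instance] CategoryTheory.catToReflQuiver

namespace Orl.Fld.FieldDatum

variable {k F L K : Type} [Field k] [Field F] [Field L] [Field K] [Algebra k F]
    [Algebra k L] [Algebra k K] [Algebra F K] [Algebra L K] [IsScalarTower k F K]
    [IsScalarTower k L K] (D : FieldDatum k F L K)

theorem sig_spl_r (i : Fin 3) : D.sig (D.spl.r i) = D.spl.r (finRotate 3 i) := by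
  have h : finRotate 3 i = i + 1 := by
    revert i
    decide
  rw [h]
  exact D.sig_r i

theorem sig_spl_s : D.sig D.spl.s = D.spl.s := D.sig_sK

theorem sig2_spl_r (i : Fin 3) :
    (D.sig * D.sig) (D.spl.r i) = D.spl.r ((finRotate 3 * finRotate 3) i) := by
  rw [AlgEquiv.mul_apply, D.sig_spl_r, D.sig_spl_r]
  rfl

theorem sig2_spl_s : (D.sig * D.sig) D.spl.s = D.spl.s := by
  rw [AlgEquiv.mul_apply, D.sig_spl_s, D.sig_spl_s]

theorem rot_two : finRotate 3 2 = 0 := by decide

theorem rot_rot_one : (finRotate 3 * finRotate 3) 1 = 0 := by decide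

/-- the conjugate of `M_I(n)` under `σ`, `I` the image of `J` -/
noncomputable def conjM_sig {I J : Finset (Fin 4)} (hJ : mv (finRotate 3) J = I) (n : ℤ) :
    (conj k D.qd.Cat D.sig).obj (D.spl.M I n) ≅ D.spl.M J n :=
  D.spl.conjM_pos D.sig (finRotate 3) D.sig_spl_r D.sig_spl_s hJ n

/-- the conjugate of `M_I(n)` under `σ ^ 2` -/
noncomputable def conjM_sig2 {I J : Finset (Fin 4)}
    (hJ : mv (finRotate 3 * finRotate 3) J = I) (n : ℤ) :
    (conj k D.qd.Cat (D.sig * D.sig)).obj (D.spl.M I n) ≅ D.spl.M J n :=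
  D.spl.conjM_pos (D.sig * D.sig) (finRotate 3 * finRotate 3) D.sig2_spl_r D.sig2_spl_s hJ n

theorem ext_autF {g h : K ≃ₐ[F] K} (hr : ∀ j, g (D.r j) = h (D.r j)) : g = h := by
  have h1 : g.restrictScalars k = h.restrictScalars k := D.ext_aut hr
  ext x
  exact congrFun (congrArg DFunLike.coe h1) x

/-- the Galois group of `K` over `F` -/
theorem gal_F (g : K ≃ₐ[F] K) : g = 1 ∨ g = D.sig ∨ g = D.sig * D.sig := by
  have h := D.perm_spec (g.restrictScalars k)
  have hs := D.apply_sK (g.restrictScalars k)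
  set p := D.perm (g.restrictScalars k)
  have h2 : ((Equiv.Perm.sign p : ℤ) : K) = 1 := by
    have h3 : (g.restrictScalars k) D.sK = D.sK := g.commutes D.s
    rw [h3] at hs
    exact (mul_right_cancel₀ D.sK_ne (by rw [one_mul]; exact hs)).symm
  have h3 : Equiv.Perm.sign p = 1 := by
    rcases Int.units_eq_one_or (Equiv.Perm.sign p) with h4 | h4
    · exact h4
    · exfalso
      rw [h4] at h2
      have h8 : (-1 : K) = 1 := by simpa using h2
      exact D.twoK (by linear_combination -h8)
  have h5 : ∀ p : Equiv.Perm (Fin 3), Equiv.Perm.sign p = 1 →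
      p = 1 ∨ p = finRotate 3 ∨ p = finRotate 3 * finRotate 3 := by decide
  rcases h5 p h3 with h6 | h6 | h6
  · refine Or.inl (D.ext_autF fun j => ?_)
    have := h j
    rw [h6] at this
    exact this
  · refine Or.inr (Or.inl (D.ext_autF fun j => ?_))
    have := h j
    rw [h6] at this
    exact this.trans (D.sig_spl_r j).symm
  · refine Or.inr (Or.inr (D.ext_autF fun j => ?_))
    have := h j
    rw [h6] at this
    exact this.trans (D.sig2_spl_r j).symm

end Orl.Fld.FieldDatum
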