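import Pool.Agent.Work.MP_a6e60d_ag.LF.LamDat
import Mathlib.FieldTheory.Galois.Basic
import Mathlib.GroupTheory.Perm.Fin
import Mathlib.LinearAlgebra.Dimension.Free

/-!
# The fields `k`, `F = k(s)`, `L = k(θ)`, `K = F L`

`s ^ 2 = a`, `θ ^ 3 = c`, the roots `r 0 = θ`, `r 1`, `r 2` of `X ^ 3 - c` lie in `K`, the
group `Gal(K/k)` is the symmetric group of the roots and acts on `s` by the sign.
-/

noncomputable section

namespace Orl.Fld

open Module

/-- The field data. -/
structure FieldDatum (k F L K : Type*) [Field k] [Field F] [Field L] [Field K] [Algebra k F]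
    [Algebra k L] [Algebra k K] [Algebra F K] [Algebra L K] [IsScalarTower k F K]
    [IsScalarTower k L K] where
  /-- the square of `s` -/
  a : k
  /-- the cube of `θ` -/
  c : k
  /-- `(r 0 - r 1) (r 1 - r 2) (r 2 - r 0) = d s` -/
  d : k
  s : F
  th : L
  s_sq : s * s = algebraMap k F a
  th_cub : th ^ 3 = algebraMap k L c
  a_ne : a ≠ 0
  c_ne : c ≠ 0
  d_ne : d ≠ 0
  two : (2 : k) ≠ 0
  three : (3 : k) ≠ 0
  /-- the basis `1, s` of `F` -/
  bF : Basis (Fin 2) k F
  bF0 : bF 0 = 1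
  bF1 : bF 1 = s
  /-- the basis `1, θ, θ ^ 2` of `L` -/
  bL : Basis (Fin 3) k L
  bL0 : bL 0 = 1
  bL1 : bL 1 = th
  bL2 : bL 2 = th ^ 2
  /-- the basis `1, s` of `K` over `L` -/
  bKL : Basis (Fin 2) L K
  bKL0 : bKL 0 = 1
  bKL1 : bKL 1 = algebraMap F K s
  /-- the basis `1, θ, θ ^ 2` of `K` over `F` -/
  bKF : Basis (Fin 3) F K
  bKF0 : bKF 0 = 1
  bKF1 : bKF 1 = algebraMap L K th
  bKF2 : bKF 2 = algebraMap L K th ^ 2
  /-- the roots of `X ^ 3 - c` -/
  r : Fin 3 → K
  r_zero : r 0 = algebraMap L K th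
  r_inj : Function.Injective r
  sum_r : r 0 + r 1 + r 2 = 0
  sum_rr : r 0 * r 1 + r 1 * r 2 + r 2 * r 0 = 0
  prod_r : r 0 * r 1 * r 2 = algebraMap k K c
  disc : (r 0 - r 1) * (r 1 - r 2) * (r 2 - r 0) = algebraMap k K d * algebraMap F K s
  /-- the generator of `Gal(K/F)` -/
  sig : K ≃ₐ[F] K
  sig_r : ∀ j, sig (r j) = r (j + 1)
  /-- the generator of `Gal(K/L)` -/
  tau : K ≃ₐ[L] K
  tau_s : tau (algebraMap F K s) = -algebraMap F K s
  tau_r : tau (r 1) = r 2

namespace FieldDatum

variable {k F L K : Type*} [Field k] [Field F] [Field L] [Field K] [Algebra k F]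
    [Algebra k L] [Algebra k K] [Algebra F K] [Algebra L K] [IsScalarTower k F K]
    [IsScalarTower k L K] (D : FieldDatum k F L K)

/-- the image of `s` in `K` -/
def sK : K := algebraMap F K D.s

lemma sK_sq : D.sK * D.sK = algebraMap k K D.a := by
  rw [sK, ← map_mul, D.s_sq, ← IsScalarTower.algebraMap_apply]

lemma s_ne : D.s ≠ 0 := by
  intro h
  have := D.s_sq
  rw [h, mul_zero] at this
  exact D.a_ne ((algebraMap k F).injective (by rw [← this, map_zero]))

lemma sK_ne : D.sK ≠ 0 := (map_ne_zero _).2 D.s_ne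

include D in
lemma twoK : (2 : K) ≠ 0 := by
  have := (map_ne_zero (algebraMap k K)).2 D.two
  rwa [map_ofNat] at this

include D in
lemma twoF : (2 : F) ≠ 0 := by
  have := (map_ne_zero (algebraMap k F)).2 D.two
  rwa [map_ofNat] at this

include D in
lemma twoL : (2 : L) ≠ 0 := by
  have := (map_ne_zero (algebraMap k L)).2 D.two
  rwa [map_ofNat] at this

include D in
lemma threeK : (3 : K) ≠ 0 := by
  have := (map_ne_zero (algebraMap k K)).2 D.three
  rwa [map_ofNat] at this

include D in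
lemma finite_F : Module.Finite k F := .of_basis D.bF

include D in
lemma finite_L : Module.Finite k L := .of_basis D.bL

include D in
lemma finite_KF : Module.Finite F K := .of_basis D.bKF

include D in
lemma finite_KL : Module.Finite L K := .of_basis D.bKL

include D in
lemma finite_K : Module.Finite k K := by
  have := D.finite_F
  have := D.finite_KF
  exact Module.Finite.trans F K

include D in
lemma finrank_F : finrank k F = 2 := by
  rw [finrank_eq_card_basis D.bF, Fintype.card_fin]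

include D in
lemma finrank_L : finrank k L = 3 := by
  rw [finrank_eq_card_basis D.bL, Fintype.card_fin]

include D in
lemma finrank_KF : finrank F K = 3 := by
  rw [finrank_eq_card_basis D.bKF, Fintype.card_fin]

include D in
lemma finrank_KL : finrank L K = 2 := by
  rw [finrank_eq_card_basis D.bKL, Fintype.card_fin]

include D in
lemma finrank_K : finrank k K = 6 := by
  rw [← finrank_mul_finrank k F K, D.finrank_F, D.finrank_KF]

/-! ### The roots -/

lemma ek_r (x : K) : (x - D.r 0) * (x - D.r 1) * (x - D.r 2) = x ^ 3 - algebraMap k K D.c := by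
  linear_combination -x ^ 2 * D.sum_r + x * D.sum_rr - D.prod_r

lemma r_cub (j : Fin 3) : D.r j ^ 3 = algebraMap k K D.c := by
  have := D.ek_r (D.r j)
  fin_cases j
  · simp only [Fin.zero_eta, sub_self, zero_mul] at this ⊢
    exact (sub_eq_zero.1 this.symm)
  · simp only [Fin.mk_one, sub_self, mul_zero, zero_mul] at this ⊢
    exact (sub_eq_zero.1 this.symm)
  · simp only [Fin.reduceFinMk, sub_self, mul_zero] at this ⊢
    exact (sub_eq_zero.1 this.symm)

lemma r_ne (j : Fin 3) : D.r j ≠ 0 := by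
  intro h
  have := D.r_cub j
  rw [h, zero_pow (by norm_num)] at this
  exact D.c_ne ((algebraMap k K).injective (by rw [← this, map_zero]))

lemma exists_r {x : K} (h : x ^ 3 = algebraMap k K D.c) : ∃ j, x = D.r j := by
  have := D.ek_r x
  rw [h, sub_self, mul_eq_zero, mul_eq_zero] at this
  rcases this with (h | h) | h
  exacts [⟨0, sub_eq_zero.1 h⟩, ⟨1, sub_eq_zero.1 h⟩, ⟨2, sub_eq_zero.1 h⟩]

open Polynomial in
/-- the polynomial identity -/
lemma poly : (X - C (D.r 0)) * (X - C (D.r 1)) * (X - C (D.r 2)) =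
    (X ^ 3 - C (algebraMap k K D.c) : K[X]) := by
  have h1 := congrArg (C : K → K[X]) D.sum_r
  have h2 := congrArg (C : K → K[X]) D.sum_rr
  have h3 := congrArg (C : K → K[X]) D.prod_r
  simp only [map_add, map_mul, map_zero] at h1 h2 h3
  linear_combination -(X : K[X]) ^ 2 * h1 + (X : K[X]) * h2 - h3

lemma sig_sK : D.sig D.sK = D.sK := D.sig.commutes D.s

lemma tau_sK : D.tau D.sK = -D.sK := D.tau_s

lemma tau_r0 : D.tau (D.r 0) = D.r 0 := by
  rw [D.r_zero]
  exact D.tau.commutes D.th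

lemma tau_r2 : D.tau (D.r 2) = D.r 1 := by
  have h := congrArg D.tau D.sum_r
  rw [map_add, map_add, map_zero, D.tau_r0, D.tau_r] at h
  linear_combination h - D.sum_r

/-- `σ` as an automorphism over `k` -/
def sigk : K ≃ₐ[k] K := D.sig.restrictScalars k

/-- `τ` as an automorphism over `k` -/
def tauk : K ≃ₐ[k] K := D.tau.restrictScalars k

@[simp] lemma sigk_apply (x : K) : D.sigk x = D.sig x := rfl

@[simp] lemma tauk_apply (x : K) : D.tauk x = D.tau x := rfl

/-! ### The Galois group -/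

/-- an automorphism permutes the roots -/
lemma exists_perm (g : K ≃ₐ[k] K) : ∃ p : Equiv.Perm (Fin 3), ∀ j, g (D.r j) = D.r (p j) := by
  have h : ∀ j, ∃ i, g (D.r j) = D.r i := fun j => D.exists_r (by
    rw [← map_pow, D.r_cub, g.commutes])
  choose f hf using h
  have hinj : Function.Injective f := fun i j hij => by
    apply D.r_inj
    apply g.injective
    rw [hf, hf, hij]
  exact ⟨Equiv.ofBijective f (Finite.injective_iff_bijective.1 hinj), hf⟩

/-- the permutation of the roots -/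
def perm (g : K ≃ₐ[k] K) : Equiv.Perm (Fin 3) := (D.exists_perm g).choose

lemma perm_spec (g : K ≃ₐ[k] K) (j : Fin 3) : g (D.r j) = D.r (D.perm g j) :=
  (D.exists_perm g).choose_spec j

lemma perm_unique {g : K ≃ₐ[k] K} {p : Equiv.Perm (Fin 3)} (h : ∀ j, g (D.r j) = D.r (p j)) :
    D.perm g = p := by
  ext j : 1
  apply D.r_inj
  rw [← D.perm_spec, h]

/-- the discriminant changes by the sign -/
lemma disc_perm (p : Equiv.Perm (Fin 3)) : (D.r (p 0) - D.r (p 1)) * (D.r (p 1) - D.r (p 2)) *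
      (D.r (p 2) - D.r (p 0)) = ((Equiv.Perm.sign p : ℤ) : K) *
        ((D.r 0 - D.r 1) * (D.r 1 - D.r 2) * (D.r 2 - D.r 0)) := by
  have hp : p = 1 ∨ p = Equiv.swap 0 1 ∨ p = Equiv.swap 0 2 ∨ p = Equiv.swap 1 2 ∨
      p = Equiv.swap 0 1 * Equiv.swap 1 2 ∨ p = Equiv.swap 1 2 * Equiv.swap 0 1 := by
    revert p
    decide
  have s01 : Equiv.Perm.sign (Equiv.swap (0 : Fin 3) 1) = -1 := by decide
  have s02 : Equiv.Perm.sign (Equiv.swap (0 : Fin 3) 2) = -1 := by decide
  have s12 : Equiv.Perm.sign (Equiv.swap (1 : Fin 3) 2) = -1 := by decide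
  have e1 : (Equiv.swap (0 : Fin 3) 1 0, Equiv.swap (0 : Fin 3) 1 1, Equiv.swap (0 : Fin 3) 1 2) =
    (1, 0, 2) := by decide
  have e2 : (Equiv.swap (0 : Fin 3) 2 0, Equiv.swap (0 : Fin 3) 2 1, Equiv.swap (0 : Fin 3) 2 2) =
    (2, 1, 0) := by decide
  have e3 : (Equiv.swap (1 : Fin 3) 2 0, Equiv.swap (1 : Fin 3) 2 1, Equiv.swap (1 : Fin 3) 2 2) =
    (0, 2, 1) := by decide
  simp only [Prod.mk.injEq] at e1 e2 e3
  obtain ⟨e10, e11, e12⟩ := e1
  obtain ⟨e20, e21, e22⟩ := e2
  obtain ⟨e30, e31, e32⟩ := e3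
  rcases hp with h | h | h | h | h | h <;> rw [h]
  · simp
  · rw [s01, e10, e11, e12]
    push_cast
    ring
  · rw [s02, e20, e21, e22]
    push_cast
    ring
  · rw [s12, e30, e31, e32]
    push_cast
    ring
  · rw [map_mul, s01, s12]
    simp only [Equiv.Perm.mul_apply, e30, e31, e32, e10, e11, e12]
    push_cast
    ring
  · rw [map_mul, s01, s12]
    simp only [Equiv.Perm.mul_apply, e30, e31, e32, e10, e11, e12]
    push_cast
    ring

/-- the action on `s` is the sign of the permutation -/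
lemma apply_sK' (g : K ≃ₐ[k] K) (p : Equiv.Perm (Fin 3)) (hp : ∀ j, g (D.r j) = D.r (p j)) :
    g D.sK = ((Equiv.Perm.sign p : ℤ) : K) * D.sK := by
  have hd : algebraMap k K D.d ≠ 0 := (map_ne_zero _).2 D.d_ne
  have h := congrArg g D.disc
  rw [map_mul, map_mul, map_sub, map_sub, map_sub, hp, hp, hp, D.disc_perm,
    D.disc, map_mul, g.commutes] at h
  apply mul_left_cancel₀ hd
  rw [sK, ← h]
  ring

lemma apply_sK (g : K ≃ₐ[k] K) : g D.sK = ((Equiv.Perm.sign (D.perm g) : ℤ) : K) * D.sK :=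
  D.apply_sK' g _ (D.perm_spec g)

/-- the action on `s` is the sign of the permutation -/
lemma exists_perm_sign (g : K ≃ₐ[k] K) : ∃ p : Equiv.Perm (Fin 3), (∀ j, g (D.r j) = D.r (p j)) ∧
    g (algebraMap F K D.s) = ((Equiv.Perm.sign p : ℤ) : K) * algebraMap F K D.s :=
  ⟨D.perm g, D.perm_spec g, D.apply_sK g⟩

/-- every permutation of the roots is given by an automorphism -/
lemma exists_aut (p : Equiv.Perm (Fin 3)) : ∃ g : K ≃ₐ[k] K, ∀ j, g (D.r j) = D.r (p j) := by
  have hp : ∃ (i : Fin 3) (e : Fin 2), ∀ j, p j = (finRotate 3 ^ (i : ℕ) *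
      Equiv.swap 1 2 ^ (e : ℕ) : Equiv.Perm (Fin 3)) j := by
    revert p
    decide
  obtain ⟨i, e, h⟩ := hp
  have h1 : ∀ j, D.sigk (D.r j) = D.r (finRotate 3 j) := fun j => by
    rw [D.sigk_apply, D.sig_r]
    congr 1
    revert j
    decide
  have h2 : ∀ j, D.tauk (D.r j) = D.r (Equiv.swap 1 2 j) := fun j => by
    rw [D.tauk_apply]
    have hj : j = 0 ∨ j = 1 ∨ j = 2 := by
      revert j
      decide
    rcases hj with h | h | h <;> rw [h]
    · rw [D.tau_r0]
      congr 1
    · rw [D.tau_r]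
      congr 1
    · rw [D.tau_r2]
      congr 1
  have h3 : ∀ (n : ℕ) (j : Fin 3), (D.sigk ^ n) (D.r j) = D.r ((finRotate 3 ^ n) j) := by
    intro n
    induction n with
    | zero => intro j; simp
    | succ n ih =>
      intro j
      rw [pow_succ, pow_succ, AlgEquiv.mul_apply, h1, ih, Equiv.Perm.mul_apply]
  have h4 : ∀ (n : ℕ) (j : Fin 3), (D.tauk ^ n) (D.r j) = D.r ((Equiv.swap 1 2 ^ n) j) := by
    intro n
    induction n with
    | zero => intro j; simp
    | succ n ih =>
      intro j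
      rw [pow_succ, pow_succ, AlgEquiv.mul_apply, h2, ih, Equiv.Perm.mul_apply]
  refine ⟨D.sigk ^ (i : ℕ) * D.tauk ^ (e : ℕ), fun j => ?_⟩
  rw [AlgEquiv.mul_apply, h4, h3, h j, Equiv.Perm.mul_apply]

/-- the roots generate `K` -/
lemma ext_aut {g h : K ≃ₐ[k] K} (hr : ∀ j, g (D.r j) = h (D.r j)) : g = h := by
  have hs : g D.sK = h D.sK := by
    rw [D.apply_sK' g (D.perm h) (fun j => by rw [hr, D.perm_spec]), D.apply_sK h]
  ext x
  have hF : ∀ y : F, g (algebraMap F K y) = h (algebraMap F K y) := fun y => by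
    rw [← D.bF.sum_repr y, Fin.sum_univ_two, D.bF0, D.bF1, Algebra.smul_def, Algebra.smul_def,
      mul_one, map_add, map_mul, ← IsScalarTower.algebraMap_apply, ← IsScalarTower.algebraMap_apply,
      map_add, map_add, map_mul, map_mul, g.commutes, g.commutes, h.commutes, h.commutes]
    congr 2
  rw [← D.bKF.sum_repr x, Fin.sum_univ_three, D.bKF0, D.bKF1, D.bKF2, ← D.r_zero,
    Algebra.smul_def, Algebra.smul_def, Algebra.smul_def]
  simp only [map_add, map_mul, map_pow, map_one, hF, hr]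

/-- `Gal(K/k)` is the symmetric group of the roots -/
lemma perm_bijective : Function.Bijective D.perm := by
  refine ⟨fun g h hgh => D.ext_aut fun j => ?_, fun p => ?_⟩
  · rw [D.perm_spec, D.perm_spec, hgh]
  · obtain ⟨g, hg⟩ := D.exists_aut p
    exact ⟨g, D.perm_unique hg⟩

include D in
lemma isGalois_K : IsGalois k K := by
  have := D.finite_K
  refine IsGalois.of_card_aut_eq_finrank k K ?_
  rw [Nat.card_congr (Equiv.ofBijective _ D.perm_bijective), D.finrank_K, Nat.card_eq_fintype_card,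
    Fintype.card_perm, Fintype.card_fin]
  rfl

include D in
lemma isGalois_KF : IsGalois F K := by
  have := D.isGalois_K
  exact IsGalois.tower_top_of_isGalois k F K

include D in
lemma isGalois_KL : IsGalois L K := by
  have := D.isGalois_K
  exact IsGalois.tower_top_of_isGalois k L K

end FieldDatum

end Orl.Fld
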