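import Pool.Agent.Work.MP_a6e60d_ag.Fld.Datum

/-!
# The data of the algebra `Λ` from the field data
-/

noncomputable section

namespace Orl.Fld

open Module QuadraticAlgebra

universe u

section gen

variable {A B : Type*} [Field A] [Field B] [Algebra A B] (b : Basis (Fin 2) A B) (s : B) (a : A)
  (h0 : b 0 = 1) (h1 : b 1 = s) (hs : s * s = algebraMap A B a)

/-- the homomorphism `A(√a) → B` -/
def qh (s : B) (a : A) (hs : s * s = algebraMap A B a) : QuadraticAlgebra A a 0 →ₐ[A] B :=
  QuadraticAlgebra.lift ⟨s, by rw [hs, zero_smul, add_zero, Algebra.algebraMap_eq_smul_one]⟩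

lemma qh_apply (z : QuadraticAlgebra A a 0) :
    qh s a hs z = algebraMap A B z.re + algebraMap A B z.im * s := by
  rw [qh, Algebra.algebraMap_eq_smul_one, ← Algebra.smul_def]
  rfl

include h0 h1 in
lemma qh_bijective : Function.Bijective (qh s a hs) := by
  have h : ∀ z : QuadraticAlgebra A a 0, qh s a hs z = z.re • b 0 + z.im • b 1 := fun z => by
    rw [qh_apply, h0, h1, Algebra.smul_def, Algebra.smul_def, mul_one]
  refine ⟨fun z w hzw => ?_, fun y => ⟨⟨b.repr y 0, b.repr y 1⟩, ?_⟩⟩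
  · rw [h, h] at hzw
    have h2 := congrArg b.repr hzw
    ext
    · simpa using DFunLike.congr_fun h2 0
    · simpa using DFunLike.congr_fun h2 1
  · rw [h]
    change b.repr y 0 • b 0 + b.repr y 1 • b 1 = y
    rw [← Fin.sum_univ_two (fun i => b.repr y i • b i), b.sum_repr]

/-- `A(√a) ≃ B` -/
def qe : QuadraticAlgebra A a 0 ≃ₐ[A] B :=
  AlgEquiv.ofBijective (qh s a hs) (qh_bijective b s a h0 h1 hs)

lemma qe_apply (z : QuadraticAlgebra A a 0) :
    qe b s a h0 h1 hs z = algebraMap A B z.re + algebraMap A B z.im * s :=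
  qh_apply s a hs z

lemma qe_symm (x y : A) :
    (qe b s a h0 h1 hs).symm (algebraMap A B x + algebraMap A B y * s) = ⟨x, y⟩ := by
  rw [AlgEquiv.symm_apply_eq, qe_apply]

end gen

namespace FieldDatum

section

variable {k F L K : Type*} [Field k] [Field F] [Field L] [Field K] [Algebra k F]
    [Algebra k L] [Algebra k K] [Algebra F K] [Algebra L K] [IsScalarTower k F K]
    [IsScalarTower k L K] (D : FieldDatum k F L K)

/-- `F = k(√a)` -/
def eF : F ≃ₐ[k] QuadraticAlgebra k D.a 0 := (qe D.bF D.s D.a D.bF0 D.bF1 D.s_sq).symm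

lemma eF_symm (z : QuadraticAlgebra k D.a 0) :
    D.eF.symm z = algebraMap k F z.re + algebraMap k F z.im * D.s :=
  qe_apply D.bF D.s D.a D.bF0 D.bF1 D.s_sq z

lemma eF_s : D.eF D.s = ⟨0, 1⟩ := by
  rw [eq_comm, ← AlgEquiv.symm_apply_eq, eF_symm, map_zero, map_one, zero_add, one_mul]

lemma sK_sq' : D.sK * D.sK = algebraMap L K (algebraMap k L D.a) := by
  rw [D.sK_sq, ← IsScalarTower.algebraMap_apply]

/-- `K = L(√a)` -/
def eK : K ≃ₐ[L] QuadraticAlgebra L (algebraMap k L D.a) 0 :=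
  (qe D.bKL D.sK (algebraMap k L D.a) D.bKL0 D.bKL1 D.sK_sq').symm

lemma eK_symm (z : QuadraticAlgebra L (algebraMap k L D.a) 0) :
    D.eK.symm z = algebraMap L K z.re + algebraMap L K z.im * D.sK :=
  qe_apply D.bKL D.sK _ D.bKL0 D.bKL1 D.sK_sq' z

lemma eK_s : D.eK D.sK = ⟨0, 1⟩ := by
  rw [eq_comm, ← AlgEquiv.symm_apply_eq, eK_symm, map_zero, map_one, zero_add, one_mul]

end

section lf

variable {k F L : Type u} {K : Type*} [Field k] [Field F] [Field L] [Field K] [Algebra k F]
    [Algebra k L] [Algebra k K] [Algebra F K] [Algebra L K] [IsScalarTower k F K]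
    [IsScalarTower k L K] (D : FieldDatum k F L K)

/-- the data of `Λ` -/
def lf : Orl.LF.Dat k F L where
  a := D.a
  e := D.eF
  th := D.th
  b := D.bL
  b0 := D.bL0
  b1 := D.bL1
  b2 := D.bL2
  two := D.two
  a0 := D.a_ne

/-- the field `K` as the field of the data of `Λ` -/
def lfK : K ≃ₐ[L] D.lf.K := D.eK

lemma lfK_F (c : F) : D.lfK (algebraMap F K c) = D.lf.iF c := by
  have h : c = D.eF.symm (D.eF c) := (D.eF.symm_apply_apply c).symm
  change D.eK (algebraMap F K c) =
    (⟨algebraMap k L (D.eF c).re, algebraMap k L (D.eF c).im⟩ :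
      QuadraticAlgebra L (algebraMap k L D.a) 0)
  rw [eq_comm, ← AlgEquiv.symm_apply_eq, eK_symm]
  conv_rhs => rw [h, eF_symm]
  rw [map_add, map_mul, ← IsScalarTower.algebraMap_apply, ← IsScalarTower.algebraMap_apply,
    ← IsScalarTower.algebraMap_apply, ← IsScalarTower.algebraMap_apply]
  rfl

lemma lfK_L (c : L) : D.lfK (algebraMap L K c) = D.lf.iL c := D.lfK.commutes c

end lf

end FieldDatum

end Orl.Fld
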